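import Pool.Agent.Y518.BS.Fill
import Pool.Agent.Helper41.BS.ExistBM

set_option autoImplicit false

/-!
# A continuum of solutions of the degenerate quadratic BSDE with generator `|z¹|² / 2`

For every probability space with a two-dimensional Brownian motion, every `T > 0` and every interval
`[a, b]` there is a terminal value `ξ` with `E exp |ξ| < ∞` such that for every `c ∈ [a, b]` the
BSDE has a solution with `Y_0 = c` and with `exp |Y|` of class (D).

Idea: the two solutions of the library `Helper807.BS` come from two sequences of values of the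
surviving path, compatible with the same frozen values. Between two such sequences there are, by
the intermediate value theorem applied at every stage, sequences with any initial value in between;
and the distance of the two initial values can be prescribed.
-/

namespace Pool.Agent.Results.MP_dddec1_pr.EveryInitialValue

open MeasureTheory ProbabilityTheory Set Filter Pool.Agent.Helper807.BS
open scoped NNReal ENNReal Topology

universe u

theorem main (Ω : Type u) [MeasurableSpace Ω] (P : Measure Ω) [IsProbabilityMeasure P]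
    (B : Fin 2 → ℝ≥0 → Ω → ℝ) (hB : IsBM2 B P) (T : ℝ) (hT : 0 < T) (a b : ℝ) (hab : a ≤ b) :
    ∃ ξ : Ω → ℝ, Measurable[Fil B P T, borel ℝ] ξ ∧ Integrable (fun ω => Real.exp |ξ ω|) P ∧
      ∀ c ∈ Icc a b, ∃ (Y : ℝ → Ω → ℝ) (Z : Fin 2 → ℝ → Ω → ℝ),
        IsSol T P B (fun z => 1 / 2 * |z 0| ^ 2) ξ Y Z ∧
        ClassD T P (Fil B P) (fun t ω => Real.exp |Y t ω|) ∧ ∀ ω, Y 0 ω = c := by
  have hg : (fun z : Fin 2 → ℝ => ∑ i, (![1, 0] : Fin 2 → ℝ) i / 2 * (z i) ^ 2) =
      fun z => 1 / 2 * |z 0| ^ 2 := by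
    funext z
    simp [Fin.sum_univ_two]
  obtain ⟨idx, v, y, y', h0, h0', hle, h1, h2, h3, h4⟩ :=
    Pool.Agent.Y518.BS.seq_degenerate_long (L := b - a) (by linarith)
  obtain ⟨v₁, H1⟩ := Pool.Agent.Y518.BS.family {1} (by simp) hle h1 h2
    (by rintro m rfl; exact h3) (by rintro m rfl; exact h4) (a - Real.log 20)
  obtain ⟨ξ, hξ, H⟩ := engine P B hB T hT idx (![1, 0] : Fin 2 → ℝ) v₁
  have key : ∀ c ∈ Icc a b, ∃ (Y : ℝ → Ω → ℝ) (Z : Fin 2 → ℝ → Ω → ℝ),
        IsSol T P B (fun z => 1 / 2 * |z 0| ^ 2) ξ Y Z ∧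
        ClassD T P (Fil B P) (fun t ω => Real.exp |Y t ω|) ∧ (∀ ω, Y 0 ω = c) ∧
        Integrable (fun ω => Real.exp |ξ ω|) P := by
    intro c hc
    obtain ⟨w, hw0, hw1, hw2⟩ := H1 c (by rw [h0']; linarith [hc.1]) (by rw [h0]; linarith [hc.2])
    obtain ⟨Y, Z, hs, hY0, hD⟩ := H w hw1
    rw [hg] at hs
    have e := hD 1 one_pos (hw2 1 rfl)
    simp only [one_mul] at e
    exact ⟨Y, Z, hs, e.1, fun ω => by rw [hY0, hw0], e.2⟩
  refine ⟨ξ, hξ, ?_, fun c hc => ?_⟩
  · obtain ⟨-, -, -, -, -, h⟩ := key a ⟨le_rfl, hab⟩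
    exact h
  · obtain ⟨Y, Z, h5, h6, h7, -⟩ := key c hc
    exact ⟨Y, Z, h5, h6, h7⟩

/-- Some complete probability space carries a two-dimensional Brownian motion. For every
probability space with a two-dimensional Brownian motion, every `T > 0` and all real `a < b` there
is a terminal value `ξ` in `exp(L)` such that for every `c ∈ [a, b]` the BSDE with generator
`|z¹|² / 2` has a solution with `Y_0 = c` and with `exp |Y|` of class (D). -/
theorem result :
    (∃ (Ω : Type) (_ : MeasurableSpace Ω) (P : Measure Ω), IsProbabilityMeasure P ∧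
      P.IsComplete ∧ ∃ B : Fin 2 → ℝ≥0 → Ω → ℝ, IsBM2 B P) ∧
    ∀ (Ω : Type u) (_ : MeasurableSpace Ω) (P : Measure Ω) (_ : IsProbabilityMeasure P)
      (B : Fin 2 → ℝ≥0 → Ω → ℝ), IsBM2 B P → ∀ T : ℝ, 0 < T → ∀ a b : ℝ, a < b →
      ∃ ξ : Ω → ℝ, Measurable[Fil B P T, borel ℝ] ξ ∧ Integrable (fun ω => Real.exp |ξ ω|) P ∧
        ∀ c ∈ Icc a b, ∃ (Y : ℝ → Ω → ℝ) (Z : Fin 2 → ℝ → Ω → ℝ),
          IsSol T P B (fun z => 1 / 2 * |z 0| ^ 2) ξ Y Z ∧
          ClassD T P (Fil B P) (fun t ω => Real.exp |Y t ω|) ∧ ∀ ω, Y 0 ω = c :=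
  ⟨Pool.Agent.Helper41.BS.exists_bm2,
    fun Ω _ P _ B hB T hT a b hab => main Ω P B hB T hT a b hab.le⟩

end Pool.Agent.Results.MP_dddec1_pr.EveryInitialValue
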